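import Pool.Agent.V1157.FD.Defs

/-!
# Hodge, Tate and motivated classes up to bounded defects: definitions
-/

open CategoryTheory AlgebraicGeometry

universe u v w x y

namespace Pool.Agent.V1157.FM

open Pool.Agent.H914 Pool.Agent.H914.VarClass Pool.Agent.H914.VarClass.Obj Pool.Agent.W492.BB
  Pool.Agent.V1157.BD Pool.Agent.V1157.FD

variable {k : Type u} [Field k] {𝒱 : VarClass k} {C : TheoryData.{u, v, 0} 𝒱 ℚ} {K : Type w}
  [Field K] {G : Type x} [Group G] {H : WeilTheoryData.{u, v, w} C K}

/-- The class `t` is a linear combination of classes of the family `A`. -/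
def InSpan (A : ClassFamily H) {X : 𝒱.Obj} (r : ℕ) (t : H.A X) : Prop :=
  t ∈ Submodule.span K {y : H.A X | A.Mem X r y}

variable (R : FormData.{u, v, w, x, y} G H) (A B : ClassFamily H) (n r : ℕ)

/-- On the varieties of dimension `n` over all finite extensions of `F`, the classes of
codimension `r` of the family `B` are linear combinations of classes of the family `A`. -/
def Spanned : Prop :=
  ∀ (X : R.Form) (t : H.A (R.obj X)), (R.obj X).dim = n → B.Mem (R.obj X) r t → InSpan A r t

/-- On the varieties of dimension `n` over `F`, any `D + 1` classes of codimension `r` of the family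
`B` are linearly dependent modulo classes of the family `A`. -/
def DefectAtMost (D : ℕ) : Prop :=
  ∀ (X : R.Form) (t : Fin (D + 1) → H.A (R.obj X)), R.grp X = ⊤ → (R.obj X).dim = n →
    (∀ i, B.Mem (R.obj X) r (t i)) → ∃ c : Fin (D + 1) → K, c ≠ 0 ∧ InSpan A r (∑ i, c i • t i)

/-- On the varieties of dimension `n` over all finite extensions of `F`, the classes of
codimension `r` of the family `B` are Tate classes. -/
def AllTate : Prop :=
  ∀ (X : R.Form) (t : H.A (R.obj X)), (R.obj X).dim = n → B.Mem (R.obj X) r t → IsTate R X r t

/-- On the varieties of dimension `n` over `F`, any `D + 1` classes of codimension `r` of the family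
`B` are linearly dependent modulo Tate classes. -/
def TateDefectAtMost (D : ℕ) : Prop :=
  ∀ (X : R.Form) (t : Fin (D + 1) → H.A (R.obj X)), R.grp X = ⊤ → (R.obj X).dim = n →
    (∀ i, B.Mem (R.obj X) r (t i)) → ∃ c : Fin (D + 1) → K, c ≠ 0 ∧ IsTate R X r (∑ i, c i • t i)

/-- On the varieties of dimension `n` over all finite extensions of `F`, the Tate classes of
codimension `r` are linear combinations of classes of the family `A`. -/
def TateSpanned : Prop :=
  ∀ (X : R.Form) (t : H.A (R.obj X)), (R.obj X).dim = n → IsTate R X r t → InSpan A r t

/-- For all varieties `X` over `F` of dimension `n`, the Tate classes in `H^{2r}(X)(r)` are sums of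
linear combinations of classes of the family `A`, of linear combinations of Tate classes defined
over extensions of degree at most `D`, and of elements of a subrepresentation which is generated by
`D` elements. -/
def TateWithin (D : ℕ) : Prop :=
  ∀ X : R.Form, R.grp X = ⊤ → (R.obj X).dim = n →
    ∃ x : Fin D → H.A (R.obj X), (∀ l, H.Deg (2 * r) (x l)) ∧
      ∀ t : H.A (R.obj X), IsTate R X r t → ∃ y ∈ generated R X r x,
        ∃ z ∈ Submodule.span K {s : H.A (R.obj X) | DefinedInDegree R X r D s},
          InSpan A r (t - y - z)

end Pool.Agent.V1157.FM
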