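import Pool.Agent.V1157.FM.Defs
import Pool.Agent.V1157.FD.Main

/-!
# Hodge, Tate and motivated classes up to bounded defects
-/

open CategoryTheory AlgebraicGeometry

universe u v w x y

namespace Pool.Agent.V1157.FM

open Pool.Agent.H914 Pool.Agent.H914.VarClass Pool.Agent.H914.VarClass.Obj Pool.Agent.W492.BB
  Pool.Agent.W550.Corr Pool.Agent.TH133 Pool.Agent.Y148.BB
open Pool.Agent.V1157.BD (ClassFamily IsAlg Pw sc alg_cl)
open Pool.Agent.V1157.FD (FormData IsGalois IsTate DefinedInDegree generated HasTwistedPower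
  HasTwistedPowers card_le twist exists_one rep coe_rep exists_fixing TP TP.act_down TP.act_up
  TP.isTate_down TP.isTate_up TP.push_pull TP.push_pull_ne push_deg')
open Pool.Agent.V1157.SS.Aux (pl ps coe_pl coe_ps algSub mem_algSub ps_pl_eq)

set_option linter.unusedSectionVars false

variable {k : Type u} [Field k] {𝒱 : VarClass k} {C : TheoryData.{u, v, 0} 𝒱 ℚ}
  [hC : IsChowProj C] {K : Type w} [Field K] {H : WeilTheoryData.{u, v, w} C K}
  [hH : IsWeilProj H] {n r : ℕ} {G : Type x} [Group G] {R : FormData.{u, v, w, x, y} G H}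
  {X Y : 𝒱.Obj}

/-- The linear combinations of classes of the family. -/
def spanSub (A₀ : ClassFamily H) (X : 𝒱.Obj) (r : ℕ) : Submodule K (H.gr X (2 * r)) :=
  (Submodule.span K {y : H.A X | A₀.Mem X r y}).comap (H.gr X (2 * r)).subtype

omit hC hH in
lemma mem_spanSub {A₀ : ClassFamily H} {t : H.gr X (2 * r)} :
    t ∈ spanSub A₀ X r ↔ InSpan A₀ r (t : H.A X) := Iff.rfl

lemma inSpan_push {A₀ : ClassFamily H} (hX : X.dim = n) (hY : Y.dim = n) (f : X ⟶ Y)
    {t : H.A X} (ht : InSpan A₀ r t) : InSpan A₀ r (H.push f t) := by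
  induction ht using Submodule.span_induction with
  | mem x hx => exact Submodule.subset_span (A₀.push f (by rw [hX, hY]) hx)
  | zero => rw [map_zero]; exact Submodule.zero_mem _
  | add a b _ _ ha hb => rw [map_add]; exact Submodule.add_mem _ ha hb
  | smul c a _ ha => rw [map_smul]; exact Submodule.smul_mem _ c ha

lemma span_push {A₀ : ClassFamily H} (hX : X.dim = n) (hY : Y.dim = n) (f : X ⟶ Y)
    {t : H.gr X (2 * r)} (ht : t ∈ spanSub A₀ X r) : ps H hX hY f r t ∈ spanSub A₀ Y r := by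
  rw [mem_spanSub, coe_ps]
  exact inSpan_push hX hY f ht

omit hC hH in
lemma alg_inSpan {A₀ : ClassFamily H}
    (hA₀ : ∀ (X : 𝒱.Obj) (r : ℕ) (z : C.A X), C.Deg r z → A₀.Mem X r (H.cl z)) {t : H.A X}
    (ht : IsAlg H r t) : InSpan A₀ r t := by
  refine (Submodule.span_le.2 ?_) ht
  rintro _ ⟨z, hz, rfl⟩
  exact Submodule.subset_span (hA₀ X r z hz)

omit hC hH in
lemma alg_le {A₀ : ClassFamily H}
    (hA₀ : ∀ (X : 𝒱.Obj) (r : ℕ) (z : C.A X), C.Deg r z → A₀.Mem X r (H.cl z))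
    {t : H.gr X (2 * r)} (ht : t ∈ algSub H X r) : t ∈ spanSub A₀ X r := alg_inSpan hA₀ ht

/-- **If the Tate classes on varieties over `F` are in the span of the family up to classes defined
over extensions of bounded degree and subrepresentations with a bounded number of generators, then
this holds for all Tate classes on varieties over finite extensions of `F`.** -/
theorem spanned_of_within [CharZero K] (hR : IsGalois R) {A₀ : ClassFamily H}
    (hA₀ : ∀ (X : 𝒱.Obj) (r : ℕ) (z : C.A X), C.Deg r z → A₀.Mem X r (H.cl z))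
    (hfin : ∀ X : 𝒱.Obj, Module.Finite K (H.A X)) (hP : HasTwistedPowers R n) {D : ℕ}
    (hD : TateWithin R A₀ n r D) : TateSpanned R A₀ n r := by
  classical
  intro S t hS ht
  have hfS := hfin (R.obj S)
  obtain ⟨U₁, hU₁S, hU₁f, hU₁⟩ := exists_fixing (r := r) hR S
  have hfi := hR.fin S
  have hsub : (U₁.subgroupOf (R.grp S)).FiniteIndex := inferInstance
  set I := (U₁.subgroupOf (R.grp S)).index with hI
  have hI0 : I ≠ 0 := hsub.index_ne_zero
  obtain ⟨N, χ, hN, hBN, hχ, hpow⟩ := hP S (D * I) hS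
  have hNN : NeZero N := ⟨hN.ne_zero⟩
  have hN1 : Fact (1 < N) := ⟨hN.one_lt⟩
  by_contra hne
  let ι := (G ⧸ R.grp S) × Fin D
  have hfq : Finite (G ⧸ R.grp S) := inferInstance
  have hfqt : Fintype (G ⧸ R.grp S) := Fintype.ofFinite _
  let W := ZMod N → H.gr (R.obj S) (2 * r)
  have hfr : Module.Finite K (H.gr (R.obj S) (2 * r)) := inferInstance
  have hfW : Module.Finite K W := inferInstance
  set M := Fintype.card ι * Module.finrank K (W →ₗ[K] W) + 1 with hM
  obtain ⟨V, p, a, c, κ, e1, e2, e3, e4, e5, e6, e7⟩ := hpow M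
  have h : TP R n χ M V p a c κ := ⟨hS, e1, e2, e3, e4, e5, e6, e7⟩
  obtain ⟨x, hx, hx'⟩ := hD V e1 e2
  have hVU : R.grp S ≤ R.grp V := by rw [e1]; exact le_top
  -- the equivariant maps
  let Φ : Fin M → H.gr (R.obj V) (2 * r) →ₗ[K] W := fun m =>
    LinearMap.pi fun i => ps H h.dimV h.dimS (p i m) r
  let δ : W →ₗ[K] H.gr (R.obj S) (2 * r) :=
    (LinearMap.proj (R := K) (φ := fun _ : ZMod N => H.gr (R.obj S) (2 * r)) 0) -
      (LinearMap.proj (R := K) (φ := fun _ : ZMod N => H.gr (R.obj S) (2 * r)) 1)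
  let A : Submodule K (H.gr (R.obj V) (2 * r)) := spanSub A₀ (R.obj V) r ⊔
    (Submodule.span K {s : H.A (R.obj V) | DefinedInDegree R V r D s}).comap
      (H.gr (R.obj V) (2 * r)).subtype
  have hΦ : ∀ (m : Fin M) (g : R.grp S) (s : H.gr (R.obj V) (2 * r)),
      Φ m (rep hR V r hVU g s) = twist (rep hR S r le_rfl) χ g (Φ m s) := by
    intro m g s
    funext i
    apply Subtype.ext
    change H.push (p i m) (R.act g V r s) =
      R.act g S r (H.push (p (i - Multiplicative.toAdd (χ g)) m) s)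
    have h1 := h.act_down hR g (i - Multiplicative.toAdd (χ g)) m.2 s.2
    rw [sub_add_cancel] at h1
    exact h1.symm
  -- classes defined in degree at most `D`
  have hdef : ∀ (m : Fin M) (s : H.A (R.obj V)), DefinedInDegree R V r D s →
      H.push (p 0 m) s = H.push (p 1 m) s := by
    rintro m s ⟨hs, U₂, hU₂f, hU₂D, hU₂⟩
    have hsub2 : (U₂.subgroupOf (R.grp S)).FiniteIndex := inferInstance
    have h3 : (U₂.subgroupOf (R.grp S)).index ≤ D := by
      refine le_trans ?_ hU₂D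
      have h6 := Subgroup.relIndex_le_of_le_right (H := U₂) (K := R.grp S) le_top
        (by rw [Subgroup.relIndex_top_right]; exact hU₂f.index_ne_zero)
      rwa [Subgroup.relIndex_top_right] at h6
    have h4 : (U₂.subgroupOf (R.grp S) ⊓ U₁.subgroupOf (R.grp S)).index ≤ D * I :=
      Subgroup.index_inf_le.trans (Nat.mul_le_mul_right _ h3)
    obtain ⟨g, hg, hg1⟩ := exists_one hN hχ (A := U₂.subgroupOf (R.grp S) ⊓ U₁.subgroupOf (R.grp S))
      (Subgroup.FiniteIndex.index_ne_zero) (lt_of_le_of_lt h4 hBN)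
    have h5 := h.act_down hR g 0 m.2 hs
    rw [hg1, hU₂ g hg.1, toAdd_ofAdd, zero_add] at h5
    have h6 := hU₁ _ (h.isTate_down hR 0 m.2 hs hU₂f hU₂) g hg.2
    exact h6.symm.trans h5
  have hA : ∀ m, ∀ s ∈ A, Φ m s ∈ (spanSub A₀ (R.obj S) r).comap δ := by
    intro m s hs
    obtain ⟨s₁, hs₁, s₂, hs₂, rfl⟩ := Submodule.mem_sup.1 hs
    rw [map_add]
    apply Submodule.add_mem
    · change ps H h.dimV h.dimS (p 0 m) r s₁ - ps H h.dimV h.dimS (p 1 m) r s₁ ∈
        spanSub A₀ (R.obj S) r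
      apply Submodule.sub_mem
      · exact span_push h.dimV h.dimS _ hs₁
      · exact span_push h.dimV h.dimS _ hs₁
    · change ps H h.dimV h.dimS (p 0 m) r s₂ - ps H h.dimV h.dimS (p 1 m) r s₂ ∈
        spanSub A₀ (R.obj S) r
      have h1 : H.push (p 0 m) (s₂ : H.A (R.obj V)) = H.push (p 1 m) (s₂ : H.A (R.obj V)) := by
        have h2 : ∀ s ∈ Submodule.span K {s : H.A (R.obj V) | DefinedInDegree R V r D s},
            H.push (p 0 m) s = H.push (p 1 m) s := by
          intro s hs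
          induction hs using Submodule.span_induction with
          | mem s hs => exact hdef m s hs
          | zero => rw [map_zero, map_zero]
          | add a b _ _ iha ihb => rw [map_add, map_add, iha, ihb]
          | smul c a _ iha => rw [map_smul, map_smul, iha]
        exact h2 _ hs₂
      have h2 : ps H h.dimV h.dimS (p 0 m) r s₂ = ps H h.dimV h.dimS (p 1 m) r s₂ :=
        Subtype.ext h1
      rw [h2, sub_self]
      exact Submodule.zero_mem _
  let x' : ι → H.gr (R.obj V) (2 * r) := fun q =>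
    ⟨R.act (Quotient.out q.1)⁻¹ V r (x q.2), hR.deg V r _ (by rw [e1]; exact Subgroup.mem_top _) _
      (hx q.2)⟩
  have hgen : ∀ s : H.gr (R.obj V) (2 * r), (s : H.A (R.obj V)) ∈ generated R V r x →
      s ∈ Submodule.span K {y | ∃ (g : R.grp S) (l : ι), y = rep hR V r hVU g (x' l)} := by
    intro s hs
    have h1 : generated R V r x ≤ (Submodule.span K
        {y | ∃ (g : R.grp S) (l : ι), y = rep hR V r hVU g (x' l)}).map
          (H.gr (R.obj V) (2 * r)).subtype := by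
      rw [generated, Submodule.span_le]
      rintro _ ⟨g, l, rfl⟩
      have h2 : (QuotientGroup.mk (Quotient.out (QuotientGroup.mk g⁻¹ : G ⧸ R.grp S)) : G ⧸ R.grp S) =
          QuotientGroup.mk g⁻¹ := Quotient.out_eq' _
      set o := Quotient.out (QuotientGroup.mk g⁻¹ : G ⧸ R.grp S) with ho
      have h3 : o⁻¹ * g⁻¹ ∈ R.grp S := QuotientGroup.eq.1 h2
      have h4 : g * o ∈ R.grp S := by
        have := (R.grp S).inv_mem h3
        rwa [mul_inv_rev, inv_inv, inv_inv] at this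
      refine ⟨rep hR V r hVU ⟨g * o, h4⟩ (x' (QuotientGroup.mk g⁻¹, l)),
        Submodule.subset_span ⟨⟨g * o, h4⟩, (QuotientGroup.mk g⁻¹, l), rfl⟩, ?_⟩
      change R.act (g * o) V r (R.act o⁻¹ V r (x l)) = R.act g V r (x l)
      have hmem : ∀ g : G, g ∈ R.grp V := fun g => by rw [e1]; exact Subgroup.mem_top _
      rw [← hR.mul V r _ (hmem _) _ (hmem _) _ (hx l), mul_assoc, mul_inv_cancel, mul_one]
    obtain ⟨s', hs', he⟩ := h1 hs
    have : s' = s := Subtype.ext he
    rwa [← this]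
  have key := card_le (ρ := rep hR V r hVU) (τ := twist (rep hR S r le_rfl) χ) Φ hΦ A
    ((spanSub A₀ (R.obj S) r).comap δ) hA x' (fun m => pl H (p 0 m) r ⟨t, ht.1⟩)
    (fun m => by
      obtain ⟨y, hy, z, hz, hyz⟩ := hx' _ (h.isTate_up hR 0 m.2 ht)
      have hy0 : y ∈ H.gr (R.obj V) (2 * r) := by
        refine (Submodule.span_le.2 ?_) hy
        rintro _ ⟨g, l, rfl⟩
        exact hR.deg V r g (by rw [e1]; exact Subgroup.mem_top _) _ (hx l)
      have hz0 : z ∈ H.gr (R.obj V) (2 * r) := by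
        refine (Submodule.span_le.2 ?_) hz
        rintro s hs
        exact hs.1
      have h1 : pl H (p 0 m) r ⟨t, ht.1⟩ = ((pl H (p 0 m) r ⟨t, ht.1⟩ - ⟨y, hy0⟩ - ⟨z, hz0⟩) +
          ⟨z, hz0⟩) + ⟨y, hy0⟩ := by abel
      rw [h1]
      refine Submodule.add_mem_sup (Submodule.add_mem_sup ?_ hz) (hgen _ hy)
      exact hyz)
    (t := Pi.single 0 ⟨t, ht.1⟩)
    (by
      rw [Submodule.mem_comap]
      change (Pi.single (M := fun _ => H.gr (R.obj S) (2 * r)) 0 ⟨t, ht.1⟩ 0 -
        Pi.single (M := fun _ => H.gr (R.obj S) (2 * r)) 0 ⟨t, ht.1⟩ 1) ∉ spanSub A₀ (R.obj S) r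
      rw [Pi.single_eq_same, Pi.single_eq_of_ne one_ne_zero, sub_zero]
      exact hne)
    (κ := (κ : K)) (by exact_mod_cast h.hκ)
    (fun m => by
      rw [Submodule.mem_comap]
      change ((ps H h.dimV h.dimS (p 0 m) r (pl H (p 0 m) r ⟨t, ht.1⟩) - (κ : K) •
          Pi.single (M := fun _ => H.gr (R.obj S) (2 * r)) 0 ⟨t, ht.1⟩ 0) -
        (ps H h.dimV h.dimS (p 1 m) r (pl H (p 0 m) r ⟨t, ht.1⟩) - (κ : K) •
          Pi.single (M := fun _ => H.gr (R.obj S) (2 * r)) 0 ⟨t, ht.1⟩ 1)) ∈ spanSub A₀ (R.obj S) r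
      rw [Pi.single_eq_same, Pi.single_eq_of_ne one_ne_zero, smul_zero, sub_zero,
        h.push_pull 0 m.2, sub_self, zero_sub]
      apply Submodule.neg_mem
      exact alg_le hA₀ (h.push_pull_ne m.2 m.2 (fun e => zero_ne_one (congrArg Prod.fst e)) _))
    (fun m m' hmm => by
      rw [Submodule.mem_comap]
      change (ps H h.dimV h.dimS (p 0 m) r (pl H (p 0 m') r ⟨t, ht.1⟩) -
        ps H h.dimV h.dimS (p 1 m) r (pl H (p 0 m') r ⟨t, ht.1⟩)) ∈ spanSub A₀ (R.obj S) r
      apply Submodule.sub_mem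
      · exact alg_le hA₀ (h.push_pull_ne m'.2 m.2 (fun e => hmm (Fin.ext (congrArg Prod.snd e).symm)) _)
      · exact alg_le hA₀ (h.push_pull_ne m'.2 m.2 (fun e => hmm (Fin.ext (congrArg Prod.snd e).symm)) _))
  exact absurd (hM ▸ key) (Nat.not_succ_le_self _)

omit hC hH in
theorem within_of_spanned {A₀ : ClassFamily H} (h : TateSpanned R A₀ n r) :
    TateWithin R A₀ n r 0 := by
  intro X _ hX
  refine ⟨Fin.elim0, fun l => l.elim0, fun t ht => ⟨0, Submodule.zero_mem _, 0,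
    Submodule.zero_mem _, ?_⟩⟩
  rw [sub_zero, sub_zero]
  exact h X t hX ht

section defect

variable {S V : R.Form} {N M : ℕ} {χ : R.grp S →* Multiplicative (ZMod N)}
  {p : ZMod N → ℕ → (R.obj V ⟶ R.obj S)} {a : C.A (R.obj S)} {c κ : ℚ}

/-- The push-forward of a combination of pull-backs. -/
lemma TP.push_sum [CharZero K] (h : TP R n χ M V p a c κ) {t : H.A (R.obj S)}
    (ht : H.Deg (2 * r) t) (b : Fin M → K) (i : Fin M) :
    IsAlg H r (H.push (p 0 i) (∑ j, b j • H.pull (p 0 j) t) - (b i * κ) • t) := by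
  rw [map_sum, ← Finset.add_sum_erase _ _ (Finset.mem_univ i), map_smul]
  have h1 : H.push (p 0 i) (H.pull (p 0 i) t) = (κ : K) • t :=
    congrArg Subtype.val (h.push_pull 0 i.2 (⟨t, ht⟩ : H.gr (R.obj S) (2 * r)))
  rw [h1, smul_smul, add_sub_cancel_left]
  apply Submodule.sum_mem
  intro j hj
  rw [map_smul]
  exact Submodule.smul_mem _ _ (h.push_pull_ne j.2 i.2
    (fun e => (Finset.mem_erase.1 hj).1 (Fin.ext (congrArg Prod.snd e)))
    (⟨t, ht⟩ : H.gr (R.obj S) (2 * r)))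

end defect

/-- Bounded defects vanish. -/
theorem spanned_of_defect [CharZero K] {A₀ B₀ : ClassFamily H}
    (hA₀ : ∀ (X : 𝒱.Obj) (r : ℕ) (z : C.A X), C.Deg r z → A₀.Mem X r (H.cl z))
    (hP : HasTwistedPowers R n) {D : ℕ} (hD : DefectAtMost R A₀ B₀ n r D) :
    Spanned R A₀ B₀ n r := by
  intro S t hS ht
  obtain ⟨N, χ, hN, -, -, hpow⟩ := hP S 0 hS
  obtain ⟨V, p, a, c, κ, e1, e2, e3, e4, e5, e6, e7⟩ := hpow (D + 1)
  have h : TP R n χ (D + 1) V p a c κ := ⟨hS, e1, e2, e3, e4, e5, e6, e7⟩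
  obtain ⟨b, hb, hb2⟩ := hD V (fun i => H.pull (p 0 i) t) e1 e2 (fun i => B₀.pull (p 0 i) ht)
  obtain ⟨i, hi⟩ : ∃ i, b i ≠ 0 := by
    by_contra hcon
    push Not at hcon
    exact hb (funext hcon)
  have h1 := inSpan_push h.dimV h.dimS (p 0 i) hb2
  have h2 := alg_inSpan hA₀ (TP.push_sum h (B₀.deg ht) b i)
  have h3 : InSpan A₀ r ((b i * (κ : K)) • t) := by
    have := Submodule.sub_mem _ h1 h2
    rwa [sub_sub_cancel] at this
  have h4 : b i * (κ : K) ≠ 0 := mul_ne_zero hi (by exact_mod_cast h.hκ)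
  have h5 := Submodule.smul_mem _ (b i * (κ : K))⁻¹ h3
  rwa [smul_smul, inv_mul_cancel₀ h4, one_smul] at h5

omit hC hH in
theorem defect_of_spanned {A₀ B₀ : ClassFamily H} (h : Spanned R A₀ B₀ n r) :
    DefectAtMost R A₀ B₀ n r 0 := by
  intro X t _ hX ht
  refine ⟨fun _ => 1, fun h0 => one_ne_zero (congrFun h0 0), ?_⟩
  exact Submodule.sum_mem _ fun i _ => Submodule.smul_mem _ _ (h X (t i) hX (ht i))

/-- Sums of Tate classes. -/
lemma isTate_add (hR : IsGalois R) {X : R.Form} {s t : H.A (R.obj X)} (hs : IsTate R X r s)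
    (ht : IsTate R X r t) : IsTate R X r (s + t) := by
  obtain ⟨ht, U, hU, hUf, hU'⟩ := ht
  obtain ⟨hs, U2, hU2, hUf2, hU2'⟩ := hs
  refine ⟨Submodule.add_mem _ hs ht, U ⊓ U2, inf_le_left.trans hU, inferInstance, ?_⟩
  intro g hg
  rw [hR.add X r g (hU hg.1) s t hs ht, hU' g hg.1, hU2' g hg.2]

lemma isTate_smul (hR : IsGalois R) {X : R.Form} {t : H.A (R.obj X)} (c : K)
    (ht : IsTate R X r t) : IsTate R X r (c • t) := by
  obtain ⟨ht, U, hU, hUf, hU'⟩ := ht
  refine ⟨Submodule.smul_mem _ c ht, U, hU, hUf, ?_⟩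
  intro g hg
  rw [hR.smul X r g (hU hg) c t ht, hU' g hg]

/-- Bounded defects vanish: classes modulo Tate classes. -/
theorem allTate_of_defect [CharZero K] (hR : IsGalois R) {B₀ : ClassFamily H}
    (hcl : ∀ (X : R.Form) (r : ℕ) (z : C.A (R.obj X)), C.Deg r z → IsTate R X r (H.cl z))
    (hP : HasTwistedPowers R n) {D : ℕ} (hD : TateDefectAtMost R B₀ n r D) :
    AllTate R B₀ n r := by
  intro S t hS ht
  obtain ⟨N, χ, hN, -, -, hpow⟩ := hP S 0 hS
  have hNN : NeZero N := ⟨hN.ne_zero⟩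
  obtain ⟨V, p, a, c, κ, e1, e2, e3, e4, e5, e6, e7⟩ := hpow (D + 1)
  have h : TP R n χ (D + 1) V p a c κ := ⟨hS, e1, e2, e3, e4, e5, e6, e7⟩
  obtain ⟨b, hb, hb2⟩ := hD V (fun i => H.pull (p 0 i) t) e1 e2 (fun i => B₀.pull (p 0 i) ht)
  obtain ⟨i, hi⟩ : ∃ i, b i ≠ 0 := by
    by_contra hcon
    push Not at hcon
    exact hb (funext hcon)
  obtain ⟨hb3, U, -, hUf, hU⟩ := hb2
  have h1 := h.isTate_down hR 0 i.2 hb3 hUf hU
  have h2 : ∀ s : H.A (R.obj S), IsAlg H r s → IsTate R S r s := by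
    intro s hs
    induction hs using Submodule.span_induction with
    | mem x hx =>
      obtain ⟨z, hz, rfl⟩ := hx
      exact hcl S r z hz
    | zero =>
      have := isTate_smul hR 0 (h1)
      rwa [zero_smul] at this
    | add a b _ _ ha hb => exact isTate_add hR ha hb
    | smul c a _ ha => exact isTate_smul hR c ha
  have h3 := h2 _ (TP.push_sum h (B₀.deg ht) b i)
  have h4 : IsTate R S r ((b i * (κ : K)) • t) := by
    have := isTate_add hR h1 (isTate_smul hR (-1) h3)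
    rw [neg_one_smul, ← sub_eq_add_neg] at this
    have h6 : H.push (p 0 i) (∑ j, b j • H.pull (p 0 j) t) -
      (H.push (p 0 i) (∑ j, b j • H.pull (p 0 j) t) - (b i * (κ : K)) • t) =
        (b i * (κ : K)) • t := sub_sub_cancel _ _
    rw [← h6]
    exact this
  have h5 : b i * (κ : K) ≠ 0 := mul_ne_zero hi (by exact_mod_cast h.hκ)
  have h6 := isTate_smul hR (b i * (κ : K))⁻¹ h4
  rwa [smul_smul, inv_mul_cancel₀ h5, one_smul] at h6

theorem defect_of_allTate (hR : IsGalois R) {B₀ : ClassFamily H} (h : AllTate R B₀ n r) :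
    TateDefectAtMost R B₀ n r 0 := by
  intro X t _ hX ht
  refine ⟨fun _ => 1, fun h0 => one_ne_zero (congrFun h0 0), ?_⟩
  rw [Fin.sum_univ_one]
  exact isTate_smul hR 1 (h X (t 0) hX (ht 0))

end Pool.Agent.V1157.FM
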